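import Pool.Agent.Y522.Sch
import Pool.Agent.Helper514.IoD

/-!
# Local diffeomorphisms of the ball which agree with an embedding near the boundary
-/

set_option autoImplicit false

open Set Filter Topology Metric Function
open scoped Manifold ContDiff

noncomputable section

namespace Pool.Agent.K7.H28.CB

open Pool.Agent.Y522

variable {n : ℕ}

section

variable {H F : E n → E n} {ρ : ℝ}

/-- the points with exactly one preimage in the closed ball -/
def One (F : E n → E n) : Set (E n) :=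
  {y | ∃ x, ‖x‖ ≤ 1 ∧ F x = y ∧ ∀ x', ‖x'‖ ≤ 1 → F x' = y → x' = x}

theorem pre_near (hFc : ContinuousOn F (closedBall 0 1)) {U : Set (E n)} (hU : IsOpen U) {y : E n}
    (h : ∀ x, ‖x‖ ≤ 1 → F x = y → x ∈ U) :
    ∀ᶠ y' in 𝓝 y, ∀ x, ‖x‖ ≤ 1 → F x = y' → x ∈ U := by
  have h1 : IsCompact (closedBall (0 : E n) 1 \ U) :=
    (isCompact_closedBall _ _).diff hU
  have h2 : IsClosed (F '' (closedBall (0 : E n) 1 \ U)) :=
    (h1.image_of_continuousOn (hFc.mono sdiff_subset)).isClosed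
  have h3 : y ∉ F '' (closedBall (0 : E n) 1 \ U) := by
    rintro ⟨x, ⟨hx1, hx2⟩, hx3⟩
    exact hx2 (h x (mem_closedBall_zero_iff.1 hx1) hx3)
  filter_upwards [h2.isOpen_compl.mem_nhds h3] with y' hy' x hx hxy
  by_contra hxU
  exact hy' ⟨x, ⟨mem_closedBall_zero_iff.2 hx, hxU⟩, hxy⟩

theorem one_nhds (hFc : ContinuousOn F (closedBall 0 1)) (hFL : ∀ x, ‖x‖ < 1 → LD n F x)
    {y : E n} (hy : y ∈ One F) (hb : ∀ x, ‖x‖ = 1 → F x ≠ y) : One F ∈ 𝓝 y := by
  obtain ⟨x, hx, hxy, hu⟩ := hy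
  have hx1 : ‖x‖ < 1 := lt_of_le_of_ne hx fun h => hb x h hxy
  obtain ⟨U, hU, hUi⟩ : ∃ U ∈ 𝓝 x, InjOn F U := by
    obtain ⟨U, hU, hi⟩ := (hFL x hx1).eventually_injOn
    exact ⟨U, hU, hi⟩
  obtain ⟨U', hU'U, hU'o, hxU'⟩ := _root_.mem_nhds_iff.1 hU
  have h1 := pre_near hFc hU'o (y := y) fun x' hx' hxy' => by
    rw [hu x' hx' hxy']
    exact hxU'
  have h2 : F '' (ball (0 : E n) 1) ∈ 𝓝 y := by
    rw [← hxy]
    exact (hFL x hx1).image_mem_nhds (isOpen_ball.mem_nhds (mem_ball_zero_iff.2 hx1))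
  filter_upwards [h1, h2] with y' h1' h2'
  obtain ⟨z, hz, hzy⟩ := h2'
  have hz1 : ‖z‖ ≤ 1 := (mem_ball_zero_iff.1 hz).le
  exact ⟨z, hz1, hzy, fun z' hz' hzy' =>
    hUi (hU'U (h1' z' hz' hzy')) (hU'U (h1' z hz1 hzy)) (hzy'.trans hzy.symm)⟩

theorem notOne_nhds (hFc : ContinuousOn F (closedBall 0 1)) (hFL : ∀ x, ‖x‖ < 1 → LD n F x)
    {y : E n} (hy : y ∉ One F) (hb : ∀ x, ‖x‖ = 1 → F x ≠ y) : (One F)ᶜ ∈ 𝓝 y := by
  by_cases hex : ∃ x, ‖x‖ ≤ 1 ∧ F x = y
  · obtain ⟨x, hx, hxy⟩ := hex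
    have h1 : ∃ x', ‖x'‖ ≤ 1 ∧ F x' = y ∧ x' ≠ x := by
      by_contra hcon
      push Not at hcon
      exact hy ⟨x, hx, hxy, hcon⟩
    obtain ⟨x', hx', hxy', hne⟩ := h1
    have hx1 : ‖x‖ < 1 := lt_of_le_of_ne hx fun h => hb x h hxy
    have hx1' : ‖x'‖ < 1 := lt_of_le_of_ne hx' fun h => hb x' h hxy'
    obtain ⟨A, B, hA, hB, hxA, hxB, hAB⟩ := t2_separation hne
    have g1 : F '' (A ∩ ball 0 1) ∈ 𝓝 y := by
      rw [← hxy']
      exact (hFL x' hx1').image_mem_nhds (inter_mem (hA.mem_nhds hxA)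
        (isOpen_ball.mem_nhds (mem_ball_zero_iff.2 hx1')))
    have g2 : F '' (B ∩ ball 0 1) ∈ 𝓝 y := by
      rw [← hxy]
      exact (hFL x hx1).image_mem_nhds (inter_mem (hB.mem_nhds hxB)
        (isOpen_ball.mem_nhds (mem_ball_zero_iff.2 hx1)))
    filter_upwards [g1, g2] with y' hy1 hy2
    obtain ⟨a, ⟨haA, ha1⟩, hay⟩ := hy1
    obtain ⟨b, ⟨hbB, hb1⟩, hby⟩ := hy2
    rintro ⟨z, -, -, hz⟩
    have e1 := hz a (mem_ball_zero_iff.1 ha1).le hay
    have e2 := hz b (mem_ball_zero_iff.1 hb1).le hby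
    exact (Set.disjoint_left.1 hAB haA) (by rw [e1, ← e2]; exact hbB)
  · push Not at hex
    have h1 := pre_near hFc isOpen_empty (y := y) fun x hx hxy => (hex x hx hxy).elim
    filter_upwards [h1] with y' hy'
    rintro ⟨z, hz, hzy, -⟩
    exact hy' z hz hzy

/-- A local diffeomorphism of the open ball which agrees near the boundary with an injective map of
the closed ball is injective, and has the same image. -/
theorem fill [Nontrivial (E n)] (hρ : ρ < 1) (hHc : ContinuousOn H (closedBall 0 1))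
    (hHi : InjOn H (closedBall 0 1)) (hFc : ContinuousOn F (closedBall 0 1))
    (hFH : ∀ x, ρ ≤ ‖x‖ → ‖x‖ ≤ 1 → F x = H x) (hFL : ∀ x, ‖x‖ < 1 → LD n F x) :
    InjOn F (closedBall 0 1) ∧ F '' ball 0 1 = H '' ball 0 1 := by
  have hsub : ball (0 : E n) 1 ⊆ closedBall 0 1 := ball_subset_closedBall
  have hFS : ∀ x, ‖x‖ = 1 → F x = H x := fun x hx => hFH x (by rw [hx]; exact hρ.le) hx.le
  obtain ⟨V, hV⟩ : ∃ V : Set (E n), V = H '' ball 0 1 := ⟨_, rfl⟩
  have hVo : IsOpen V := by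
    rw [isOpen_iff_mem_nhds, hV]
    rintro _ ⟨x, hx, rfl⟩
    rw [mem_ball_zero_iff] at hx
    have hr : 0 < (1 - ‖x‖) / 2 := by linarith
    have hin : closedBall x ((1 - ‖x‖) / 2) ⊆ ball 0 1 := by
      intro z hz
      rw [mem_closedBall, dist_eq_norm] at hz
      rw [mem_ball_zero_iff]
      have h1 : ‖z‖ ≤ ‖z - x‖ + ‖x‖ := by
        have h2 := norm_add_le (z - x) x
        rwa [sub_add_cancel] at h2
      linarith
    have h1 := Pool.Agent.Helper514.IoD.image_mem_nhds H x _ hr (hHc.mono (hin.trans hsub))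
      (hHi.mono (hin.trans hsub))
    exact mem_of_superset h1 (image_mono hin)
  have hVc : IsPreconnected V := by
    rw [hV]
    exact (convex_ball (0 : E n) 1).isPreconnected.image _ (hHc.mono hsub)
  have hVb : ∀ y ∈ V, ∀ x, ‖x‖ = 1 → F x ≠ y := by
    intro y hy x hx hxy
    rw [hV] at hy
    obtain ⟨z, hz, rfl⟩ := hy
    rw [hFS x hx] at hxy
    have h1 := hHi (mem_closedBall_zero_iff.2 hx.le) (hsub hz) hxy
    rw [mem_ball_zero_iff, ← h1, hx] at hz
    exact lt_irrefl _ hz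
  have hrad : ∀ x : E n, ‖x‖ = 1 → Tendsto (fun s : ℝ => F (s • x)) (𝓝[<] 1) (𝓝 (F x)) := by
    intro x hx
    have h1 : Tendsto (fun s : ℝ => s • x) (𝓝[<] 1) (𝓝[closedBall 0 1] x) := by
      refine tendsto_nhdsWithin_iff.2 ⟨?_, ?_⟩
      · have h2 : Tendsto (fun s : ℝ => s • x) (𝓝 1) (𝓝 ((1 : ℝ) • x)) :=
          (continuous_id.smul continuous_const).tendsto 1
        rw [one_smul] at h2
        exact h2.mono_left nhdsWithin_le_nhds
      · have h2 : ∀ᶠ s : ℝ in 𝓝[<] 1, 0 < s :=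
          mem_nhdsWithin_of_mem_nhds (lt_mem_nhds zero_lt_one)
        filter_upwards [h2, self_mem_nhdsWithin] with s hs hs'
        rw [mem_closedBall_zero_iff, norm_smul, hx, mul_one, Real.norm_of_nonneg hs.le]
        exact le_of_lt hs'
    exact (hFc x (mem_closedBall_zero_iff.2 hx.le)).tendsto.comp h1
  -- the points near the boundary
  have hray : ∀ (x : E n), ‖x‖ = 1 → ∀ (a : ℝ), a < 1 → ∀ P : Set (E n), P ∈ 𝓝 (F x) →
      ∃ z : E n, a < ‖z‖ ∧ ρ ≤ ‖z‖ ∧ ‖z‖ < 1 ∧ F z ∈ P ∧ F z ∈ V := by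
    intro x hx a ha P hP
    have h1 := (hrad x hx).eventually hP
    have h2 : ∀ᶠ s : ℝ in 𝓝[<] 1, 0 < s :=
      mem_nhdsWithin_of_mem_nhds (lt_mem_nhds zero_lt_one)
    have h3 : ∀ᶠ s : ℝ in 𝓝[<] 1, a < s := mem_nhdsWithin_of_mem_nhds (lt_mem_nhds ha)
    have h4 : ∀ᶠ s : ℝ in 𝓝[<] 1, ρ < s := mem_nhdsWithin_of_mem_nhds (lt_mem_nhds hρ)
    have h5 : ∀ᶠ s : ℝ in 𝓝[<] 1, s < 1 := self_mem_nhdsWithin
    obtain ⟨s, hs⟩ := (((h1.and h2).and (h3.and h4)).and h5).exists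
    obtain ⟨⟨⟨hs1, hs2⟩, hs3, hs4⟩, hs5⟩ := hs
    have hsn : ‖s • x‖ = s := by
      rw [norm_smul, hx, mul_one, Real.norm_of_nonneg hs2.le]
    refine ⟨s • x, by rw [hsn]; exact hs3, by rw [hsn]; exact hs4.le, by rw [hsn]; exact hs5, hs1,
      ?_⟩
    rw [hFH (s • x) (by rw [hsn]; exact hs4.le) (by rw [hsn]; exact hs5.le), hV]
    exact ⟨s • x, mem_ball_zero_iff.2 (by rw [hsn]; exact hs5), rfl⟩
  -- one point of `V` with one preimage
  have hne : (V ∩ interior (One F)).Nonempty := by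
    obtain ⟨w, hw⟩ := exists_ne (0 : E n)
    obtain ⟨φ, hφ⟩ : ∃ φ : E n →L[ℝ] ℝ, φ = innerSL ℝ w := ⟨_, rfl⟩
    have hφw : 0 < φ w := by
      rw [hφ, innerSL_apply_apply, real_inner_self_eq_norm_sq]
      positivity
    obtain ⟨x₀, hx₀, hmax⟩ := (isCompact_closedBall (0 : E n) 1).exists_isMaxOn
      ⟨0, mem_closedBall_zero_iff.2 (by simp)⟩ (φ.continuous.comp_continuousOn hFc)
    have hb : ∀ x, ‖x‖ ≤ 1 → F x = F x₀ → ‖x‖ = 1 := by
      intro x hx hxx
      by_contra hne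
      have hx1 : ‖x‖ < 1 := lt_of_le_of_ne hx hne
      have h1 : F '' closedBall 0 1 ∈ 𝓝 (F x₀) := by
        rw [← hxx]
        exact (hFL x hx1).image_mem_nhds (mem_of_superset
          (isOpen_ball.mem_nhds (mem_ball_zero_iff.2 hx1)) hsub)
      have h2 : Tendsto (fun t : ℝ => F x₀ + t • w) (𝓝[>] 0) (𝓝 (F x₀)) := by
        have h3 : Tendsto (fun t : ℝ => F x₀ + t • w) (𝓝 0) (𝓝 (F x₀ + (0 : ℝ) • w)) :=
          (continuous_const.add (continuous_id.smul continuous_const)).tendsto 0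
        rw [zero_smul, add_zero] at h3
        exact h3.mono_left nhdsWithin_le_nhds
      obtain ⟨t, ht1, ht2⟩ := ((h2.eventually h1).and self_mem_nhdsWithin).exists
      obtain ⟨z, hz, hzt⟩ := ht1
      have h4 : φ (F z) ≤ φ (F x₀) := hmax hz
      rw [hzt, map_add, map_smul, smul_eq_mul] at h4
      have h5 : 0 < t * φ w := mul_pos ht2 hφw
      linarith
    have hx₀1 : ‖x₀‖ = 1 := hb x₀ (mem_closedBall_zero_iff.1 hx₀) rfl
    have h1 := pre_near hFc (U := {x | ρ < ‖x‖}) (isOpen_lt continuous_const continuous_norm)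
      (y := F x₀) fun x hx hxx => by
        change ρ < ‖x‖
        rw [hb x hx hxx]
        exact hρ
    obtain ⟨z, -, hz2, hz3, hz4, hz5⟩ := hray x₀ hx₀1 0 zero_lt_one _ h1
    refine ⟨F z, hz5, mem_interior_iff_mem_nhds.2 (one_nhds hFc hFL ?_ (hVb _ hz5))⟩
    refine ⟨z, hz3.le, rfl, fun x' hx' hxx => ?_⟩
    have h2 : ρ < ‖x'‖ := hz4 x' hx' hxx
    rw [hFH x' h2.le hx', hFH z hz2 hz3.le] at hxx
    exact hHi (mem_closedBall_zero_iff.2 hx') (mem_closedBall_zero_iff.2 hz3.le) hxx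
  have hVT : V ⊆ One F := by
    have h1 : V ⊆ interior (One F) := by
      refine IsPreconnected.subset_left_of_subset_union isOpen_interior
        (isOpen_interior (s := (One F)ᶜ)) ?_ ?_ hne hVc
      · exact Set.disjoint_left.2 fun y h1 h2 => (interior_subset h2) (interior_subset h1)
      · intro y hy
        by_cases h : y ∈ One F
        · exact Or.inl (mem_interior_iff_mem_nhds.2 (one_nhds hFc hFL h (hVb y hy)))
        · exact Or.inr (mem_interior_iff_mem_nhds.2 (notOne_nhds hFc hFL h (hVb y hy)))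
    exact h1.trans interior_subset
  -- interior points are not mapped to the image of the sphere
  have hsph : ∀ x, ‖x‖ < 1 → ∀ x', ‖x'‖ = 1 → F x ≠ F x' := by
    intro x hx x' hx' hxx
    have ha : (1 + ‖x‖) / 2 < 1 := by linarith
    have h1 : F '' ball 0 ((1 + ‖x‖) / 2) ∈ 𝓝 (F x') := by
      rw [← hxx]
      exact (hFL x hx).image_mem_nhds (isOpen_ball.mem_nhds (mem_ball_zero_iff.2 (by linarith)))
    obtain ⟨z, hz1, -, hz3, ⟨a, ha1, ha2⟩, hz5⟩ := hray x' hx' _ ha _ h1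
    obtain ⟨b, -, -, hbu⟩ := hVT hz5
    rw [mem_ball_zero_iff] at ha1
    have e1 := hbu z hz3.le rfl
    have e2 := hbu a (by linarith) ha2
    rw [e1, ← e2] at hz1
    linarith
  -- the image
  have hFV : ∀ x, ‖x‖ < 1 → F x ∈ V := by
    have hcl : IsClosed (H '' closedBall 0 1) :=
      ((isCompact_closedBall _ _).image_of_continuousOn hHc).isClosed
    have hFcb : ContinuousOn F (ball 0 1) := hFc.mono hsub
    obtain ⟨A, hA⟩ : ∃ A : Set (E n), A = {x | ‖x‖ < 1 ∧ F x ∈ V} := ⟨_, rfl⟩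
    obtain ⟨B, hB⟩ : ∃ B : Set (E n), B = {x | ‖x‖ < 1 ∧ F x ∉ H '' closedBall 0 1} := ⟨_, rfl⟩
    have hAo : IsOpen A := by
      have h1 := hFcb.isOpen_inter_preimage isOpen_ball hVo
      convert h1 using 1
      rw [hA]
      ext x
      simp only [mem_ofPred_eq, mem_inter_iff, mem_ball_zero_iff, mem_preimage]
    have hBo : IsOpen B := by
      have h1 := hFcb.isOpen_inter_preimage isOpen_ball hcl.isOpen_compl
      convert h1 using 1
      rw [hB]
      ext x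
      simp only [mem_ofPred_eq, mem_inter_iff, mem_ball_zero_iff, mem_preimage, mem_compl_iff]
    have hsubA : ball (0 : E n) 1 ⊆ A := by
      refine IsPreconnected.subset_left_of_subset_union hAo hBo ?_ ?_ ?_
        (convex_ball (0 : E n) 1).isPreconnected
      · rw [hA, hB]
        refine Set.disjoint_left.2 fun y h1 h2 => h2.2 ?_
        have h3 := h1.2
        rw [hV] at h3
        exact image_mono hsub h3
      · intro x hx
        rw [mem_ball_zero_iff] at hx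
        by_cases h : F x ∈ H '' closedBall 0 1
        · left
          rw [hA]
          refine ⟨hx, ?_⟩
          obtain ⟨z, hz, hzx⟩ := h
          rw [mem_closedBall_zero_iff] at hz
          rcases lt_or_eq_of_le hz with hz' | hz'
          · rw [hV]
            exact ⟨z, mem_ball_zero_iff.2 hz', hzx⟩
          · exact (hsph x hx z hz' (by rw [hFS z hz', hzx])).elim
        · right
          rw [hB]
          exact ⟨hx, h⟩
      · obtain ⟨w, hw⟩ := exists_ne (0 : E n)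
        have hu : ‖(‖w‖⁻¹ : ℝ) • w‖ = 1 := by
          rw [norm_smul, norm_inv, norm_norm, inv_mul_cancel₀ (norm_ne_zero_iff.2 hw)]
        obtain ⟨z, -, -, hz3, -, hz5⟩ := hray _ hu 0 zero_lt_one univ univ_mem
        exact ⟨z, mem_ball_zero_iff.2 hz3, by rw [hA]; exact ⟨hz3, hz5⟩⟩
    intro x hx
    have h1 := hsubA (mem_ball_zero_iff.2 hx)
    rw [hA] at h1
    exact h1.2
  refine ⟨?_, ?_⟩
  · intro x hx x' hx' hxx
    rw [mem_closedBall_zero_iff] at hx hx'
    rcases lt_or_eq_of_le hx with h | h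
    · obtain ⟨z, -, -, hz⟩ := hVT (hFV x h)
      rw [hz x hx rfl, hz x' hx' hxx.symm]
    · rcases lt_or_eq_of_le hx' with h' | h'
      · obtain ⟨z, -, -, hz⟩ := hVT (hFV x' h')
        rw [hz x hx hxx, hz x' hx' rfl]
      · rw [hFS x h, hFS x' h'] at hxx
        exact hHi (mem_closedBall_zero_iff.2 hx) (mem_closedBall_zero_iff.2 hx') hxx
  · refine Subset.antisymm ?_ ?_
    · rintro _ ⟨x, hx, rfl⟩
      rw [← hV]
      exact hFV x (mem_ball_zero_iff.1 hx)
    · intro y hy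
      rw [← hV] at hy
      obtain ⟨x, hx, hxy, -⟩ := hVT hy
      refine ⟨x, mem_ball_zero_iff.2 (lt_of_le_of_ne hx fun h => hVb y hy x h hxy), hxy⟩

end

end Pool.Agent.K7.H28.CB
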