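import Pool.Agent.K7.H28.AF.Moll

/-!
# The mollification of a map which is coarsely monotone in one direction
-/

set_option autoImplicit false

open Set Filter Topology Metric Function MeasureTheory
open scoped Manifold ContDiff

noncomputable section

namespace Pool.Agent.K7.H28.CB

open Pool.Agent.Y522 Pool.Agent.Y954.SH Pool.Agent.K7.H28.AF
open Pool.Agent.Y207.SH3 (kr_smul_integrable)

variable {n : ℕ}

section maxf

/-- the running maximum of `f` in the direction `u` -/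
def rmax (u : E n) (f : E n → ℝ) (w : E n) : ℝ :=
  sSup ((fun s : ℝ => f (w - ((1 - s) * (inner ℝ u w + 3)) • u)) '' Icc (0 : ℝ) 1)

theorem rmax_cont (u : E n) {f : E n → ℝ} (hf : Continuous f) : Continuous (rmax u f) := by
  have h1 : Continuous fun p : E n × ℝ => f (p.1 - ((1 - p.2) * (inner ℝ u p.1 + 3)) • u) := by
    have h2 : Continuous fun p : E n × ℝ => (inner ℝ u p.1 : ℝ) :=
      continuous_const.inner continuous_fst
    have h3 : Continuous fun p : E n × ℝ => (1 - p.2) * (inner ℝ u p.1 + 3) :=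
      (continuous_const.sub continuous_snd).mul (h2.add continuous_const)
    exact hf.comp (continuous_fst.sub (h3.smul continuous_const))
  exact (isCompact_Icc (a := (0 : ℝ)) (b := 1)).continuous_sSup h1

theorem rmax_bdd (u : E n) {f : E n → ℝ} (hf : Continuous f) (w : E n) :
    BddAbove ((fun s : ℝ => f (w - ((1 - s) * (inner ℝ u w + 3)) • u)) '' Icc (0 : ℝ) 1) := by
  refine ((isCompact_Icc (a := (0 : ℝ)) (b := 1)).image ?_).bddAbove
  fun_prop

theorem le_rmax (u : E n) {f : E n → ℝ} (hf : Continuous f) (w : E n) : f w ≤ rmax u f w := by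
  refine le_csSup (rmax_bdd u hf w) ⟨1, ⟨zero_le_one, le_rfl⟩, ?_⟩
  simp

theorem rmax_mono {u : E n} (hu : ‖u‖ = 1) {f : E n → ℝ} (hf : Continuous f) {w : E n} {τ : ℝ}
    (hτ : 0 ≤ τ) (hw : 0 ≤ inner ℝ u w + 3) : rmax u f w ≤ rmax u f (w + τ • u) := by
  refine csSup_le_csSup (rmax_bdd u hf _) ⟨_, ⟨0, ⟨le_rfl, zero_le_one⟩, rfl⟩⟩ ?_
  rintro _ ⟨s, ⟨hs0, hs1⟩, rfl⟩
  have huu : inner ℝ u (w + τ • u) = inner ℝ u w + τ := by
    rw [inner_add_right, inner_smul_right, real_inner_self_eq_norm_sq, hu]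
    ring
  rcases eq_or_lt_of_le hτ with h0 | h0
  · refine ⟨s, ⟨hs0, hs1⟩, ?_⟩
    simp only [← h0, zero_smul, add_zero]
  · have hd : 0 < inner ℝ u w + τ + 3 := by linarith
    refine ⟨1 - (τ + (1 - s) * (inner ℝ u w + 3)) / (inner ℝ u w + τ + 3), ⟨?_, ?_⟩, ?_⟩
    · rw [sub_nonneg, div_le_one hd]
      nlinarith
    · have h1 : 0 ≤ (τ + (1 - s) * (inner ℝ u w + 3)) / (inner ℝ u w + τ + 3) := by
        refine div_nonneg ?_ hd.le
        have := mul_nonneg (sub_nonneg.2 hs1) hw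
        linarith
      linarith
    · change f (w + τ • u - ((1 - (1 - (τ + (1 - s) * (inner ℝ u w + 3)) /
        (inner ℝ u w + τ + 3))) * (inner ℝ u (w + τ • u) + 3)) • u) =
        f (w - ((1 - s) * (inner ℝ u w + 3)) • u)
      congr 1
      rw [huu, sub_sub_cancel, div_mul_cancel₀ _ hd.ne', add_smul]
      abel

theorem rmax_le {u : E n} (hu : ‖u‖ = 1) {f : E n → ℝ} {η : ℝ} (hη : 0 ≤ η)
    (h : ∀ (w : E n) (t : ℝ), 0 < t → ‖w‖ ≤ 5 → ‖w + t • u‖ ≤ 5 → f w - η ≤ f (w + t • u))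
    {w : E n} (hw : ‖w‖ ≤ 3) : rmax u f w ≤ f w + η := by
  refine csSup_le ⟨_, ⟨0, ⟨le_rfl, zero_le_one⟩, rfl⟩⟩ ?_
  rintro _ ⟨s, ⟨hs0, hs1⟩, rfl⟩
  change f (w - ((1 - s) * (inner ℝ u w + 3)) • u) ≤ _
  have hin : |inner ℝ u w| ≤ 3 := by
    refine (abs_real_inner_le_norm u w).trans ?_
    rw [hu, one_mul]
    exact hw
  have hin' := abs_le.1 hin
  obtain ⟨t, ht⟩ : ∃ t : ℝ, t = (1 - s) * (inner ℝ u w + 3) := ⟨_, rfl⟩
  have ht0 : 0 ≤ t := by
    rw [ht]
    exact mul_nonneg (sub_nonneg.2 hs1) (by linarith [hin'.1])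
  have ht1 : t ≤ inner ℝ u w + 3 := by
    rw [ht]
    have := mul_nonneg hs0 (show 0 ≤ inner ℝ u w + 3 by linarith [hin'.1])
    nlinarith
  rw [← ht]
  rcases eq_or_lt_of_le ht0 with h0 | h0
  · rw [← h0, zero_smul, sub_zero]
    linarith
  · have hn : ‖w - t • u‖ ≤ 5 := by
      have h1 : ‖w - t • u‖ ^ 2 = ‖w‖ ^ 2 - 2 * (t * inner ℝ u w) + t ^ 2 := by
        rw [norm_sub_sq_real, inner_smul_right, real_inner_comm, norm_smul, hu, mul_one,
          Real.norm_eq_abs, sq_abs]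
      have h2 : ‖w - t • u‖ ^ 2 ≤ 5 ^ 2 := by
        rw [h1]
        have h3 : ‖w‖ ^ 2 ≤ 9 := by
          have := norm_nonneg w
          nlinarith
        nlinarith [hin'.1, hin'.2]
      exact le_of_sq_le_sq h2 (by norm_num)
    have h1 := h (w - t • u) t h0 hn (by rw [sub_add_cancel]; linarith)
    rw [sub_add_cancel] at h1
    linarith

end maxf

theorem moll_diffR (n : ℕ) : ∃ C : ℝ, 0 ≤ C ∧ ∀ (u : E n), ‖u‖ = 1 → ∀ (e : E n → ℝ) (M : ℝ),
    0 ≤ M → Continuous e → (∀ w, ‖w‖ ≤ 3 → |e w| ≤ M) → ∀ (ρ : ℝ) (a : E n),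
    |ρ - 1| ≤ 1 / 2 → ‖a‖ ≤ 1 →
    |(∫ s, kr n s • e (a + ρ • s)) - ∫ s, kr n s • e s| ≤ C * M * (|ρ - 1| + ‖a‖) := by
  obtain ⟨C, hC0, hC⟩ := moll_diff n
  refine ⟨C, hC0, fun u hu e M hM he heM ρ a hρ ha => ?_⟩
  have h1 := hC (fun w => e w • u) M hM (by fun_prop) (fun w hw => by
    rw [norm_smul, hu, mul_one, Real.norm_eq_abs]
    exact heM w hw) ρ a hρ ha
  have h2 : ∀ (b : E n) (σ : ℝ), ∫ s, kr n s • (e (b + σ • s) • u) =
      (∫ s, kr n s • e (b + σ • s)) • u := by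
    intro b σ
    rw [← integral_smul_const]
    congr 1
    funext s
    rw [smul_assoc]
  rw [h2, h2, ← sub_smul, norm_smul, hu, mul_one, Real.norm_eq_abs] at h1
  have h3 : ∫ s, kr n s • e (0 + (1 : ℝ) • s) = ∫ s, kr n s • e s := by
    congr 1
    funext s
    rw [zero_add, one_smul]
  rw [h3] at h1
  exact h1

theorem kr_inner (u a : E n) (ρ : ℝ) :
    ∫ s, kr n s • (inner ℝ u (a + ρ • s) : ℝ) = inner ℝ u a := by
  have i1 : Integrable (fun s : E n => kr n s • s) := kr_smul_integrable (by fun_prop)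
  have h1 : ∀ s : E n, kr n s • (inner ℝ u (a + ρ • s) : ℝ) =
      kr n s • (inner ℝ u a : ℝ) + ρ * inner ℝ u (kr n s • s) := by
    intro s
    rw [inner_add_right, inner_smul_right, inner_smul_right, smul_add, smul_eq_mul, smul_eq_mul]
    ring
  have i2 : Integrable (fun s : E n => ρ * inner ℝ u (kr n s • s)) :=
    (((innerSL ℝ u).integrable_comp i1).const_mul ρ)
  rw [integral_congr_ae (Eventually.of_forall h1), integral_add (kr_integrable.smul_const _) i2,
    integral_smul_const, kr_int, one_smul, integral_const_mul]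
  have h2 : ∫ s, inner ℝ u (kr n s • s) = inner ℝ u (∫ s, kr n s • s) :=
    (innerSL ℝ u).integral_comp_comm i1
  rw [h2, kr_first, inner_zero_right, mul_zero, add_zero]

theorem kr_mono {e e' : E n → ℝ} (he : Continuous e) (he' : Continuous e')
    (h : ∀ s, ‖s‖ ≤ 1 → e s ≤ e' s) : ∫ s, kr n s • e s ≤ ∫ s, kr n s • e' s := by
  refine integral_mono (kr_smul_integrable he.continuousOn) (kr_smul_integrable he'.continuousOn)
    fun s => ?_
  by_cases hs : kr n s = 0
  · simp only [hs, zero_smul, le_refl]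
  · exact mul_le_mul_of_nonneg_left (h s (kr_lt hs).le) (kr_nonneg s)

/-- The mollification of a coarsely monotone map increases in the direction `u`. -/
theorem coarse_pos (n : ℕ) : ∃ κ : ℝ, 0 < κ ∧ κ ≤ 1 / 64 ∧ ∀ (G : E n → E n) (c : E n → ℝ)
    (z u : E n) (ℓ : E n →L[ℝ] ℝ) (m : ℝ), Continuous G → 0 < c z → 0 < m → m ≤ 1 → ‖u‖ = 1 →
    (∀ z', ‖z' - z‖ ≤ 5 * c z → |c z' - c z| ≤ κ * m * ‖z' - z‖) →
    (∀ y, ‖y - z‖ ≤ 5 * c z → |ℓ (G y - G z)| ≤ 5 * c z) →
    (∀ (y : E n) (t : ℝ), 0 < t → ‖y - z‖ ≤ 5 * c z → ‖y + t • u - z‖ ≤ 5 * c z →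
      m * t - κ * m * (5 * c z) ≤ ℓ (G (y + t • u) - G y)) →
    ∀ h : ℝ, 0 < h → h ≤ c z / 2 → m / 2 * h ≤ ℓ (Moll n G c (z + h • u) - Moll n G c z) := by
  obtain ⟨C, hC0, hC⟩ := moll_diffR n
  obtain ⟨κ, hκd⟩ : ∃ κ : ℝ, κ = 1 / (64 * (C + 1)) := ⟨_, rfl⟩
  have hκ0 : 0 < κ := by
    rw [hκd]
    positivity
  have hκ1 : κ ≤ 1 / 64 := by
    rw [hκd]
    exact one_div_le_one_div_of_le (by norm_num) (by linarith)
  have hκC : C * κ ≤ 1 / 64 := by
    rw [hκd, mul_one_div, div_le_div_iff₀ (by positivity) (by norm_num)]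
    linarith
  refine ⟨κ, hκ0, hκ1, ?_⟩
  intro G c z u ℓ m hG hcz hm0 hm1 hu hcc hbd hmon h hh0 hh1
  obtain ⟨c₀, hc₀⟩ : ∃ c₀ : ℝ, c₀ = c z := ⟨_, rfl⟩
  rw [← hc₀] at hcz hcc hbd hmon hh1
  obtain ⟨e, hed⟩ : ∃ e : E n → ℝ, e = fun w => ℓ (G (z + c₀ • w) - G z) := ⟨_, rfl⟩
  have hec : Continuous e := by
    rw [hed]
    exact ℓ.continuous.comp ((hG.comp (by fun_prop)).sub continuous_const)
  obtain ⟨f, hfd⟩ : ∃ f : E n → ℝ, f = fun w => e w - m * c₀ * inner ℝ u w := ⟨_, rfl⟩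
  have hfc : Continuous f := by
    rw [hfd]
    exact hec.sub (continuous_const.mul (continuous_const.inner continuous_id))
  have hin : ∀ w : E n, ‖w‖ ≤ 5 → ‖(z + c₀ • w) - z‖ ≤ 5 * c₀ := by
    intro w hw
    rw [add_sub_cancel_left, norm_smul, Real.norm_of_nonneg hcz.le]
    nlinarith
  have huu : (inner ℝ u u : ℝ) = 1 := by
    rw [real_inner_self_eq_norm_sq, hu]
    norm_num
  have hmc : 0 ≤ m * c₀ := by positivity
  have hfm : ∀ (w : E n) (t : ℝ), 0 < t → ‖w‖ ≤ 5 → ‖w + t • u‖ ≤ 5 →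
      f w - 5 * κ * (m * c₀) ≤ f (w + t • u) := by
    intro w t ht hw hw'
    have h1 := hmon (z + c₀ • w) (c₀ * t) (mul_pos hcz ht) (hin w hw) (by
      have h2 := hin _ hw'
      have h3 : z + c₀ • w + (c₀ * t) • u - z = z + c₀ • (w + t • u) - z := by
        rw [smul_add, smul_smul, add_assoc]
      rw [h3]
      exact h2)
    have h2 : z + c₀ • w + (c₀ * t) • u = z + c₀ • (w + t • u) := by
      rw [smul_add, smul_smul, add_assoc]
    rw [h2] at h1
    have h3 : e (w + t • u) - e w = ℓ (G (z + c₀ • (w + t • u)) - G (z + c₀ • w)) := by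
      rw [hed]
      simp only
      rw [← map_sub]
      congr 1
      abel
    have h4 : f (w + t • u) - f w = e (w + t • u) - e w - m * c₀ * t := by
      rw [hfd]
      simp only
      rw [inner_add_right, inner_smul_right, huu]
      ring
    rw [← h3] at h1
    nlinarith
  obtain ⟨f₁, hf₁d⟩ : ∃ f₁ : E n → ℝ, f₁ = rmax u f := ⟨_, rfl⟩
  have hf₁c : Continuous f₁ := by rw [hf₁d]; exact rmax_cont u hfc
  have hfle : ∀ w, f w ≤ f₁ w := fun w => by rw [hf₁d]; exact le_rmax u hfc w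
  have hfle' : ∀ w, ‖w‖ ≤ 3 → f₁ w ≤ f w + 5 * κ * (m * c₀) := fun w hw => by
    rw [hf₁d]
    exact rmax_le hu (by positivity) hfm hw
  have hfb : ∀ w : E n, ‖w‖ ≤ 3 → |f w| ≤ 8 * c₀ := by
    intro w hw
    have h1 : |e w| ≤ 5 * c₀ := by
      rw [hed]
      exact hbd _ (hin w (hw.trans (by norm_num)))
    have h2 : |(inner ℝ u w : ℝ)| ≤ 3 := by
      refine (abs_real_inner_le_norm u w).trans ?_
      rw [hu, one_mul]
      exact hw
    have h3 : |m * c₀ * inner ℝ u w| ≤ 3 * c₀ := by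
      rw [abs_mul, abs_of_nonneg hmc]
      have h4 : m * c₀ ≤ c₀ := by nlinarith
      calc m * c₀ * |(inner ℝ u w : ℝ)| ≤ c₀ * 3 :=
            mul_le_mul h4 h2 (abs_nonneg _) hcz.le
        _ = 3 * c₀ := by ring
    rw [hfd]
    refine (abs_sub _ _).trans ?_
    linarith
  have hf₁b : ∀ w : E n, ‖w‖ ≤ 3 → |f₁ w| ≤ 9 * c₀ := by
    intro w hw
    have h1 := abs_le.1 (hfb w hw)
    have h2 := hfle w
    have h3 := hfle' w hw
    have h4 : 5 * κ * (m * c₀) ≤ c₀ := by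
      have h5 : m * c₀ ≤ c₀ := by nlinarith
      have h6 : 5 * κ ≤ 1 := by linarith
      nlinarith
    refine abs_le.2 ⟨by linarith [h1.1], by linarith [h1.2]⟩
  obtain ⟨a, had⟩ : ∃ a : E n, a = (h / c₀) • u := ⟨_, rfl⟩
  obtain ⟨ρ, hρd⟩ : ∃ ρ : ℝ, ρ = c (z + h • u) / c₀ := ⟨_, rfl⟩
  have hna : ‖a‖ = h / c₀ := by
    rw [had, norm_smul, hu, mul_one, Real.norm_of_nonneg (by positivity)]
  have hτ : h / c₀ ≤ 1 / 2 := by
    rw [div_le_iff₀ hcz]
    linarith
  have hρ1 : |ρ - 1| ≤ κ * m * (h / c₀) := by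
    have h1 : ρ - 1 = (c (z + h • u) - c₀) / c₀ := by
      rw [hρd]
      field_simp
    have h2 := hcc (z + h • u)
    rw [add_sub_cancel_left, norm_smul, hu, mul_one, Real.norm_of_nonneg hh0.le] at h2
    have h2 := h2 (by linarith)
    rw [h1, abs_div, abs_of_pos hcz, div_le_iff₀ hcz]
    refine h2.trans (le_of_eq ?_)
    field_simp
  have hκm : κ * m ≤ 1 := by nlinarith
  have hτ0 : 0 ≤ h / c₀ := by positivity
  have hρ2 : |ρ - 1| ≤ 1 / 2 := by
    refine hρ1.trans ?_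
    nlinarith
  have hρ3 := abs_le.1 hρ2
  have hca : c₀ • a = h • u := by
    rw [had, smul_smul, mul_div_cancel₀ _ hcz.ne']
  have hcρ : c₀ * ρ = c (z + h • u) := by
    rw [hρd]
    field_simp
  -- formulas for the mollification
  have hform : ∀ (b : E n) (σ : ℝ), ℓ (∫ s, kr n s • G (z + c₀ • (b + σ • s))) =
      (∫ s, kr n s • e (b + σ • s)) + ℓ (G z) := by
    intro b σ
    have c1 : Continuous fun s : E n => G (z + c₀ • (b + σ • s)) := hG.comp (by fun_prop)
    have c2 : Continuous fun s : E n => e (b + σ • s) := hec.comp (by fun_prop)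
    have i1 := kr_smul_integrable c1.continuousOn
    have i2 := kr_smul_integrable c2.continuousOn
    rw [← ContinuousLinearMap.integral_comp_comm ℓ i1]
    have h1 : ∀ s : E n, ℓ (kr n s • G (z + c₀ • (b + σ • s))) =
        kr n s • e (b + σ • s) + kr n s • ℓ (G z) := by
      intro s
      rw [map_smul, ← smul_add, hed]
      simp only
      rw [map_sub, sub_add_cancel]
    rw [integral_congr_ae (Eventually.of_forall h1),
      integral_add i2 (kr_integrable.smul_const _), integral_smul_const, kr_int, one_smul]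
  have hz' : Moll n G c (z + h • u) = ∫ s, kr n s • G (z + c₀ • (a + ρ • s)) := by
    unfold Moll
    congr 1
    funext s
    congr 2
    rw [smul_add, hca, smul_smul, hcρ]
    abel
  have hz : Moll n G c z = ∫ s, kr n s • G (z + c₀ • ((0 : E n) + (1 : ℝ) • s)) := by
    unfold Moll
    congr 1
    funext s
    congr 2
    rw [zero_add, one_smul, hc₀]
  have hdec : ∀ (b : E n) (σ : ℝ), ∫ s, kr n s • e (b + σ • s) =
      m * c₀ * inner ℝ u b + (∫ s, kr n s • f₁ (b + σ • s)) -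
        ∫ s, kr n s • (f₁ (b + σ • s) - f (b + σ • s)) := by
    intro b σ
    have k1 : Continuous fun s : E n => (inner ℝ u (b + σ • s) : ℝ) :=
      continuous_const.inner (by fun_prop)
    have k2 : Continuous fun s : E n => f₁ (b + σ • s) := hf₁c.comp (by fun_prop)
    have k3 : Continuous fun s : E n => f (b + σ • s) := hfc.comp (by fun_prop)
    have i1 := kr_smul_integrable k1.continuousOn
    have i2 := kr_smul_integrable k2.continuousOn
    have i3 : Integrable fun s : E n => kr n s • (f₁ (b + σ • s) - f (b + σ • s)) :=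
      kr_smul_integrable (k2.sub k3).continuousOn
    have h1 : ∀ s : E n, kr n s • e (b + σ • s) =
        m * c₀ * (kr n s • (inner ℝ u (b + σ • s) : ℝ)) + kr n s • f₁ (b + σ • s) -
          kr n s • (f₁ (b + σ • s) - f (b + σ • s)) := by
      intro s
      have h2 : e (b + σ • s) = f (b + σ • s) + m * c₀ * inner ℝ u (b + σ • s) := by
        rw [hfd]
        simp only
        ring
      rw [h2]
      simp only [smul_eq_mul]
      ring
    have j1 : ∫ s, (m * c₀ * (kr n s • (inner ℝ u (b + σ • s) : ℝ)) + kr n s • f₁ (b + σ • s) -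
        kr n s • (f₁ (b + σ • s) - f (b + σ • s))) =
        (∫ s, (m * c₀ * (kr n s • (inner ℝ u (b + σ • s) : ℝ)) + kr n s • f₁ (b + σ • s))) -
        ∫ s, kr n s • (f₁ (b + σ • s) - f (b + σ • s)) :=
      integral_sub ((i1.const_mul (m * c₀)).add i2) i3
    have j2 : ∫ s, (m * c₀ * (kr n s • (inner ℝ u (b + σ • s) : ℝ)) + kr n s • f₁ (b + σ • s)) =
        (∫ s, m * c₀ * (kr n s • (inner ℝ u (b + σ • s) : ℝ))) +
          ∫ s, kr n s • f₁ (b + σ • s) := integral_add (i1.const_mul (m * c₀)) i2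
    rw [integral_congr_ae (Eventually.of_forall h1), j1, j2, integral_const_mul, kr_inner]
  rw [map_sub, hz', hz, hform, hform, hdec a ρ, hdec 0 1, inner_zero_right, mul_zero]
  have e0 : ∀ (g : E n → ℝ), ∫ s, kr n s • g ((0 : E n) + (1 : ℝ) • s) = ∫ s, kr n s • g s := by
    intro g
    congr 1
    funext s
    rw [zero_add, one_smul]
  have e1 : ∫ s, kr n s • f₁ ((0 : E n) + (1 : ℝ) • s) = ∫ s, kr n s • f₁ s := e0 f₁
  have e2 : ∫ s, kr n s • (f₁ ((0 : E n) + (1 : ℝ) • s) - f ((0 : E n) + (1 : ℝ) • s)) =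
      ∫ s, kr n s • (f₁ s - f s) := e0 fun w => f₁ w - f w
  rw [e1, e2]
  have ea : m * c₀ * inner ℝ u a = m * h := by
    rw [had, inner_smul_right, huu]
    field_simp
  rw [ea]
  -- the error term
  have b1 := hC u hu (fun w => f₁ w - f w) (5 * κ * (m * c₀)) (by positivity) (hf₁c.sub hfc)
    (fun w hw => by
      have h1 := hfle w
      have h2 := hfle' w hw
      exact abs_le.2 ⟨by
        have : 0 ≤ 5 * κ * (m * c₀) := by positivity
        linarith, by linarith⟩) ρ a hρ2 (by rw [hna]; linarith)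
  have b2 := hC u hu f₁ (9 * c₀) (by positivity) hf₁c hf₁b ρ 0 hρ2 (by simp)
  have b3 : ∫ s, kr n s • f₁ ((0 : E n) + ρ • s) ≤ ∫ s, kr n s • f₁ (a + ρ • s) := by
    refine kr_mono (hf₁c.comp (by fun_prop)) (hf₁c.comp (by fun_prop)) fun s hs => ?_
    have h1 := rmax_mono hu hfc (w := (0 : E n) + ρ • s) (τ := h / c₀) hτ0 (by
      have h2 : |(inner ℝ u ((0 : E n) + ρ • s) : ℝ)| ≤ 2 := by
        refine (abs_real_inner_le_norm u _).trans ?_
        rw [hu, one_mul, zero_add, norm_smul, Real.norm_of_nonneg (by linarith [hρ3.1])]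
        nlinarith [norm_nonneg s, hρ3.2]
      linarith [(abs_le.1 h2).1])
    rw [hf₁d]
    refine h1.trans (le_of_eq ?_)
    congr 1
    rw [had, zero_add, add_comm]
  have b1' := (abs_le.1 b1)
  have b2' := (abs_le.1 b2)
  have c1 : C * (5 * κ * (m * c₀)) * (|ρ - 1| + ‖a‖) ≤ 10 / 64 * (m * h) := by
    have h1 : |ρ - 1| + ‖a‖ ≤ 2 * (h / c₀) := by
      rw [hna]
      nlinarith
    have h2 : C * (5 * κ * (m * c₀)) * (|ρ - 1| + ‖a‖) ≤
        C * (5 * κ * (m * c₀)) * (2 * (h / c₀)) := mul_le_mul_of_nonneg_left h1 (by positivity)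
    have h3 : C * (5 * κ * (m * c₀)) * (2 * (h / c₀)) = 10 * (C * κ) * (m * h) := by
      field_simp
      ring
    rw [h3] at h2
    have h4 : 0 ≤ m * h := by positivity
    nlinarith
  have c2 : C * (9 * c₀) * (|ρ - 1| + ‖(0 : E n)‖) ≤ 9 / 64 * (m * h) := by
    rw [norm_zero, add_zero]
    have h2 : C * (9 * c₀) * |ρ - 1| ≤ C * (9 * c₀) * (κ * m * (h / c₀)) :=
      mul_le_mul_of_nonneg_left hρ1 (by positivity)
    have h3 : C * (9 * c₀) * (κ * m * (h / c₀)) = 9 * (C * κ) * (m * h) := by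
      field_simp
    rw [h3] at h2
    have h4 : 0 ≤ m * h := by positivity
    nlinarith
  have hmh : 0 ≤ m * h := by positivity
  linarith [b1'.1, b1'.2, b2'.1, b2'.2]

end Pool.Agent.K7.H28.CB
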