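import Pool.Agent.K7.H28.CB.C1
import Pool.Agent.K7.H28.CB.C2

/-!
# Balls which are coarsely monotone at one scale
-/

set_option autoImplicit false

open Set Filter Topology Metric Function MeasureTheory
open scoped Manifold ContDiff

noncomputable section

namespace Pool.Agent.K7.H28.CB

open Pool.Agent.Y522 Pool.Agent.Y954.SH

variable {n : ℕ}

/-- coarse directional monotonicity of `H` at `x`, at the scale `r x` -/
def CoarseAt (κ : ℝ) (H : E n → E n) (r : E n → ℝ) (x : E n) : Prop :=
  ∃ m : ℝ, 0 < m ∧ m ≤ 1 ∧ (∀ y, ‖y - x‖ ≤ r x → |r y - r x| ≤ κ * m * ‖y - x‖) ∧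
    ∀ u : E n, ‖u‖ = 1 → ∃ ℓ : E n →L[ℝ] ℝ, (∀ y, ‖y - x‖ ≤ r x → |ℓ (H y - H x)| ≤ r x) ∧
      ∀ (y : E n) (t : ℝ), 0 < t → ‖y - x‖ ≤ r x → ‖y + t • u - x‖ ≤ r x →
        m * t - κ * m * r x ≤ ℓ (H (y + t • u) - H y)

/-- the retraction onto the closed unit ball -/
def ret (x : E n) : E n := (max 1 ‖x‖)⁻¹ • x

theorem ret_cont : Continuous (ret (n := n)) := by
  unfold ret
  refine Continuous.smul (Continuous.inv₀ (continuous_const.max continuous_norm) fun x => ?_)
    continuous_id
  have : (1 : ℝ) ≤ max 1 ‖x‖ := le_max_left _ _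
  linarith

theorem ret_norm (x : E n) : ‖ret x‖ ≤ 1 := by
  unfold ret
  have h1 : (1 : ℝ) ≤ max 1 ‖x‖ := le_max_left _ _
  rw [norm_smul, norm_inv, Real.norm_of_nonneg (by linarith), inv_mul_eq_div,
    div_le_one (by linarith)]
  exact le_max_right _ _

theorem ret_eq {x : E n} (hx : ‖x‖ ≤ 1) : ret x = x := by
  unfold ret
  rw [max_eq_left hx, inv_one, one_smul]

/-- the mollification of a coarsely monotone map of the ball -/
theorem coarse_local (n : ℕ) [Nontrivial (E n)] : ∃ κ : ℝ, 0 < κ ∧ ∀ (H : E n → E n),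
    ContinuousOn H (closedBall 0 1) → ∀ (ρ : ℝ) (r : E n → ℝ), ρ < 1 →
    ContDiff ℝ ∞ r → (∀ x, 0 ≤ r x) → (∀ x, ρ ≤ ‖x‖ → r x = 0) →
    (∀ x, ‖x‖ < 1 → r x = 0 → LD n H x) → (∀ x, 0 < r x → CoarseAt κ H r x) →
    ∃ F : E n → E n, (∀ x, ρ ≤ ‖x‖ → F x = H x) ∧ ∀ x, ‖x‖ < 1 → LD n F x := by
  obtain ⟨κ, hκ0, hκ1, hκ⟩ := coarse_pos n
  refine ⟨κ, hκ0, ?_⟩
  intro H hHc ρ r hρ hr hr0 hrρ hrz hrc
  obtain ⟨G₀, hG₀⟩ : ∃ G₀ : E n → E n, G₀ = fun x => H (ret x) := ⟨_, rfl⟩
  have hG₀c : Continuous G₀ := by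
    rw [hG₀]
    exact hHc.comp_continuous ret_cont fun x => mem_closedBall_zero_iff.2 (ret_norm x)
  have hG₀e : ∀ x, ‖x‖ ≤ 1 → G₀ x = H x := fun x hx => by
    rw [hG₀]
    simp only
    rw [ret_eq hx]
  obtain ⟨c, hcd⟩ : ∃ c : E n → ℝ, c = fun x => r x / 5 := ⟨_, rfl⟩
  have hcs : ContDiff ℝ ∞ c := by
    rw [hcd]
    exact hr.div_const 5
  have hc0 : ∀ z, 0 ≤ c z := fun z => by
    rw [hcd]
    have := hr0 z
    positivity
  have hc5 : ∀ z, 5 * c z = r z := fun z => by
    rw [hcd]
    simp only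
    ring
  have hrl : ∀ x, 0 < r x → ∀ y, ‖y - x‖ ≤ r x → |r y - r x| ≤ 1 / 64 * ‖y - x‖ := by
    intro x hx y hy
    obtain ⟨m, hm0, hm1, hm, -⟩ := hrc x hx
    refine (hm y hy).trans (mul_le_mul_of_nonneg_right ?_ (norm_nonneg _))
    nlinarith
  -- the balls of radius `r z` are contained in the unit ball
  have hball : ∀ z, 0 < r z → ∀ y, ‖y - z‖ ≤ r z → ‖y‖ < 1 := by
    intro z hz y hy
    by_contra hcon
    push Not at hcon
    have h1 := hrl z hz y hy
    rw [hrρ y (by linarith), zero_sub, abs_neg, abs_of_pos hz] at h1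
    linarith
  have hc1 : ∀ z, c z ≤ 1 / 4 := by
    intro z
    by_contra hcon
    push Not at hcon
    have h1 := hc5 z
    have h2 : 0 < r z := by linarith
    obtain ⟨w, hw⟩ := exists_ne (0 : E n)
    obtain ⟨u, hud⟩ : ∃ u : E n, u = (‖w‖⁻¹ : ℝ) • w := ⟨_, rfl⟩
    have hu : ‖u‖ = 1 := by
      rw [hud, norm_smul, norm_inv, norm_norm, inv_mul_cancel₀ (norm_ne_zero_iff.2 hw)]
    have h3 := hball z h2 (z + r z • u) (by
      rw [add_sub_cancel_left, norm_smul, hu, mul_one, Real.norm_of_nonneg h2.le])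
    have h4 := hball z h2 (z - r z • u) (by
      rw [sub_sub_cancel_left, norm_neg, norm_smul, hu, mul_one, Real.norm_of_nonneg h2.le])
    have h5 : ‖(2 * r z) • u‖ ≤ ‖z + r z • u‖ + ‖z - r z • u‖ := by
      have h6 : (2 * r z) • u = (z + r z • u) - (z - r z • u) := by
        rw [two_mul, add_smul]
        abel
      rw [h6]
      exact norm_sub_le _ _
    rw [norm_smul, hu, mul_one, Real.norm_of_nonneg (by linarith)] at h5
    linarith
  obtain ⟨-, hM0, hM1, hM2⟩ := mollS n G₀ c hG₀c.continuousOn hcs hc0 hc1 (fun z hz => by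
    rw [hcd]
    simp only
    rw [hrρ z (by linarith), zero_div])
  obtain ⟨F, hFd⟩ : ∃ F : E n → E n, F = fun z => if ‖z‖ < 1 then Moll n G₀ c z else H z :=
    ⟨_, rfl⟩
  have hFin : ∀ z, ‖z‖ < 1 → F z = Moll n G₀ c z := fun z hz => by
    rw [hFd]
    simp only
    rw [if_pos hz]
  refine ⟨F, ?_, ?_⟩
  · intro z hz
    by_cases h : ‖z‖ < 1
    · rw [hFin z h, hM0 z (by rw [hcd]; simp only; rw [hrρ z hz, zero_div]), hG₀e z h.le]
    · rw [hFd]
      simp only
      rw [if_neg h]
  · intro z hz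
    have hev : F =ᶠ[𝓝 z] Moll n G₀ c := by
      have h1 : ∀ᶠ y : E n in 𝓝 z, ‖y‖ < 1 :=
        continuous_norm.continuousAt.eventually (gt_mem_nhds hz)
      filter_upwards [h1] with y hy
      exact hFin y hy
    have key : LD n (Moll n G₀ c) z := by
      rcases eq_or_lt_of_le (hr0 z) with h | h
      · -- the radius is zero
        have hHz := hrz z hz h.symm
        have hcz : c z = 0 := by
          rw [hcd]
          simp only
          rw [← h, zero_div]
        have h1 : ∀ᶠ y : E n in 𝓝 z, ‖y‖ < 1 :=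
          continuous_norm.continuousAt.eventually (gt_mem_nhds hz)
        have h2 : G₀ =ᶠ[𝓝 z] H := by
          filter_upwards [h1] with y hy
          exact hG₀e y hy.le
        have h3 : LD n G₀ z := hHz.congr h2
        have h4 : ∀ᶠ y in 𝓝 z, LD n G₀ y := h3.eventually
        have h5 : ∀ᶠ y in 𝓝 z, ContDiffAt ℝ ∞ (Moll n G₀ c) y := by
          filter_upwards [h1, h4] with y hy1 hy2
          rcases eq_or_lt_of_le (hc0 y) with hy3 | hy3
          · exact (hM2 y hy1.le hy3.symm (hy2.eventually.mono fun w hw => hw.contDiffAt)).1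
          · exact hM1 y hy3
        refine LD_of_bij h5 ?_
        rw [(hM2 z hz.le hcz (h4.mono fun w hw => hw.contDiffAt)).2]
        exact h3.bij.2
      · have hcz : 0 < c z := by
          have := hc5 z
          linarith
        have h5 : ∀ᶠ y in 𝓝 z, ContDiffAt ℝ ∞ (Moll n G₀ c) y := by
          have h6 : ∀ᶠ y in 𝓝 z, 0 < c y :=
            hcs.continuous.continuousAt.eventually (lt_mem_nhds hcz)
          filter_upwards [h6] with y hy
          exact hM1 y hy
        refine LD_of_bij h5 ?_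
        have hd : DifferentiableAt ℝ (Moll n G₀ c) z := (h5.self_of_nhds).differentiableAt (by simp)
        have hinj : Function.Injective (fderiv ℝ (Moll n G₀ c) z) := by
          rw [injective_iff_map_eq_zero]
          intro v hv
          by_contra hne
          have hu : ‖(‖v‖⁻¹ : ℝ) • v‖ = 1 := by
            rw [norm_smul, norm_inv, norm_norm, inv_mul_cancel₀ (norm_ne_zero_iff.2 hne)]
          obtain ⟨u, hud⟩ : ∃ u : E n, u = (‖v‖⁻¹ : ℝ) • v := ⟨_, rfl⟩
          rw [← hud] at hu
          have hfu : fderiv ℝ (Moll n G₀ c) z u = 0 := by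
            rw [hud, map_smul, hv, smul_zero]
          obtain ⟨m, hm0, hm1, hml, hm⟩ := hrc z h
          obtain ⟨ℓ, hℓ1, hℓ2⟩ := hm u hu
          have hGz : G₀ z = H z := hG₀e z hz.le
          have hGy : ∀ y, ‖y - z‖ ≤ r z → G₀ y = H y := fun y hy =>
            hG₀e y (hball z h y hy).le
          have hpos := hκ G₀ c z u ℓ m hG₀c hcz hm0 hm1 hu (fun z' hz' => by
            have h1 := hml z' (by rw [← hc5]; exact hz')
            have h2 : |c z' - c z| = |r z' - r z| / 5 := by
              rw [hcd]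
              simp only
              rw [← sub_div, abs_div]
              norm_num
            rw [h2]
            have h3 : 0 ≤ κ * m * ‖z' - z‖ := by positivity
            linarith) (fun y hy => by
              rw [hc5] at hy ⊢
              rw [hGy y hy, hGz]
              exact hℓ1 y hy) (fun y t ht hy hy' => by
                rw [hc5] at hy hy' ⊢
                rw [hGy y hy, hGy _ hy']
                exact hℓ2 y t ht hy hy')
          have hder : HasDerivAt (fun s : ℝ => ℓ (Moll n G₀ c (z + s • u))) 0 0 := by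
            have g1 : HasFDerivAt (Moll n G₀ c) (fderiv ℝ (Moll n G₀ c) z) (z + (0 : ℝ) • u) := by
              rw [zero_smul, add_zero]
              exact hd.hasFDerivAt
            have g2 : HasDerivAt (fun s : ℝ => z + s • u) u 0 := by
              have := ((hasDerivAt_id (0 : ℝ)).smul_const u).const_add z
              simpa using this
            have g3 := (ℓ.hasFDerivAt.comp_hasDerivAt (0 : ℝ) (g1.comp_hasDerivAt (0 : ℝ) g2))
            rw [hfu, map_zero] at g3
            exact g3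
          have hlim := hder.tendsto_slope_zero_right
          have hge : ∀ᶠ s : ℝ in 𝓝[>] 0, m / 2 ≤
              s⁻¹ • (ℓ (Moll n G₀ c (z + (0 + s) • u)) - ℓ (Moll n G₀ c (z + (0 : ℝ) • u))) := by
            have g1 : ∀ᶠ s : ℝ in 𝓝[>] 0, s < c z / 2 :=
              mem_nhdsWithin_of_mem_nhds (gt_mem_nhds (by positivity))
            filter_upwards [g1, self_mem_nhdsWithin] with s hs hs0
            have hs0' : (0 : ℝ) < s := hs0
            have g2 := hpos s hs0' hs.le
            rw [map_sub] at g2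
            rw [zero_add, zero_smul, add_zero, smul_eq_mul, inv_mul_eq_div, le_div_iff₀ hs0']
            exact g2
          have hfin := ge_of_tendsto hlim hge
          linarith
        exact ⟨hinj, (LinearMap.injective_iff_surjective (f := (fderiv ℝ (Moll n G₀ c) z).toLinearMap)).1 hinj⟩
    exact key.congr hev

end Pool.Agent.K7.H28.CB
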