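import Pool.Agent.K7.H28.CB.C3

/-!
# Immersed balls with embedded boundary, and coarsely monotone balls
-/

set_option autoImplicit false

open Set Filter Topology Metric Function
open scoped Manifold ContDiff

noncomputable section

namespace Pool.Agent.K7.H28.CB

open Pool.Agent.Y522

variable {n : ℕ}

/-- the maximum of a linear functional on the image is attained only at boundary points -/
theorem exists_extreme [Nontrivial (E n)] {F : E n → E n} (hFc : ContinuousOn F (closedBall 0 1))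
    (hFL : ∀ x, ‖x‖ < 1 → LD n F x) :
    ∃ x₀ : E n, ‖x₀‖ = 1 ∧ ∀ x, ‖x‖ ≤ 1 → F x = F x₀ → ‖x‖ = 1 := by
  have hsub : ball (0 : E n) 1 ⊆ closedBall 0 1 := ball_subset_closedBall
  obtain ⟨w, hw⟩ := exists_ne (0 : E n)
  obtain ⟨φ, hφ⟩ : ∃ φ : E n →L[ℝ] ℝ, φ = innerSL ℝ w := ⟨_, rfl⟩
  have hφw : 0 < φ w := by
    rw [hφ, innerSL_apply_apply, real_inner_self_eq_norm_sq]
    positivity
  obtain ⟨x₀, hx₀, hmax⟩ := (isCompact_closedBall (0 : E n) 1).exists_isMaxOn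
    ⟨0, mem_closedBall_zero_iff.2 (by simp)⟩ (φ.continuous.comp_continuousOn hFc)
  have hb : ∀ x, ‖x‖ ≤ 1 → F x = F x₀ → ‖x‖ = 1 := by
    intro x hx hxx
    by_contra hne
    have hx1 : ‖x‖ < 1 := lt_of_le_of_ne hx hne
    have h1 : F '' closedBall 0 1 ∈ 𝓝 (F x₀) := by
      rw [← hxx]
      exact (hFL x hx1).image_mem_nhds (mem_of_superset
        (isOpen_ball.mem_nhds (mem_ball_zero_iff.2 hx1)) hsub)
    have h2 : Tendsto (fun t : ℝ => F x₀ + t • w) (𝓝[>] 0) (𝓝 (F x₀)) := by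
      have h3 : Tendsto (fun t : ℝ => F x₀ + t • w) (𝓝 0) (𝓝 (F x₀ + (0 : ℝ) • w)) :=
        (continuous_const.add (continuous_id.smul continuous_const)).tendsto 0
      rw [zero_smul, add_zero] at h3
      exact h3.mono_left nhdsWithin_le_nhds
    obtain ⟨t, ht1, ht2⟩ := ((h2.eventually h1).and self_mem_nhdsWithin).exists
    obtain ⟨z, hz, hzt⟩ := ht1
    have h4 : φ (F z) ≤ φ (F x₀) := hmax hz
    rw [hzt, map_add, map_smul, smul_eq_mul] at h4
    have h5 : 0 < t * φ w := mul_pos ht2 hφw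
    linarith
  exact ⟨x₀, hb x₀ (mem_closedBall_zero_iff.1 hx₀) rfl, hb⟩

/-- A local diffeomorphism near the closed ball which is injective on the boundary sphere is
injective on the closed ball. -/
theorem inj_of_boundary (hn : 1 < Module.rank ℝ (E n)) {F : E n → E n}
    (hFL : ∀ x, ‖x‖ ≤ 1 → LD n F x) (hi : InjOn F (sphere 0 1)) : InjOn F (closedBall 0 1) := by
  have hnt : Nontrivial (E n) := by
    by_contra hcon
    rw [not_nontrivial_iff_subsingleton] at hcon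
    rw [rank_subsingleton'] at hn
    exact absurd hn (by simp)
  have hFc : ContinuousOn F (closedBall 0 1) := fun x hx =>
    (hFL x (mem_closedBall_zero_iff.1 hx)).continuousAt.continuousWithinAt
  have hFL' : ∀ x, ‖x‖ < 1 → LD n F x := fun x hx => hFL x hx.le
  obtain ⟨x₀, hx₀, hx₀m⟩ := exists_extreme hFc hFL'
  -- interior points are not mapped to the image of the sphere
  have hsph : ∀ x, ‖x‖ = 1 → ∀ x', ‖x'‖ < 1 → F x' ≠ F x := by
    obtain ⟨A, hA⟩ : ∃ A : Set (E n), A = {x | ∃ x', ‖x'‖ < 1 ∧ F x' = F x} := ⟨_, rfl⟩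
    have hAo : ∀ x, ‖x‖ = 1 → x ∈ A → A ∈ 𝓝 x := by
      intro x hx hxA
      rw [hA] at hxA ⊢
      obtain ⟨x', hx', hxx⟩ := hxA
      have h1 : F '' ball 0 1 ∈ 𝓝 (F x) := by
        rw [← hxx]
        exact (hFL x' hx'.le).image_mem_nhds (isOpen_ball.mem_nhds (mem_ball_zero_iff.2 hx'))
      filter_upwards [(hFL x hx.le).continuousAt h1] with z hz
      obtain ⟨w, hw, hwz⟩ := hz
      exact ⟨w, mem_ball_zero_iff.1 hw, hwz⟩
    have hAc : ∀ x, ‖x‖ = 1 → x ∉ A → {z | ‖z‖ = 1 → z ∉ A} ∈ 𝓝 x := by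
      intro x hx hxA
      obtain ⟨U, hU, hUi⟩ : ∃ U ∈ 𝓝 x, InjOn F U := by
        obtain ⟨U, hU, hi⟩ := (hFL x hx.le).eventually_injOn
        exact ⟨U, hU, hi⟩
      obtain ⟨U', hU'U, hU'o, hxU'⟩ := _root_.mem_nhds_iff.1 hU
      have h1 := pre_near hFc hU'o (y := F x) fun z hz hzx => by
        rcases lt_or_eq_of_le hz with h | h
        · rw [hA] at hxA
          exact (hxA ⟨z, h, hzx⟩).elim
        · have h2 := hi (mem_sphere_zero_iff_norm.2 h) (mem_sphere_zero_iff_norm.2 hx) hzx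
          rw [h2]
          exact hxU'
      filter_upwards [(hFL x hx.le).continuousAt.eventually h1, hU'o.mem_nhds hxU'] with z hz hzU
        hz1 hzA
      rw [hA] at hzA
      obtain ⟨w, hw, hwz⟩ := hzA
      have h2 := hUi (hU'U (hz w hw.le hwz)) (hU'U hzU) hwz
      rw [h2, hz1] at hw
      exact lt_irrefl _ hw
    have hpc : IsPreconnected (sphere (0 : E n) 1) := isPreconnected_sphere hn _ _
    intro x hx x' hx' hxx
    have hxA : x ∈ A := by
      rw [hA]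
      exact ⟨x', hx', hxx⟩
    have hx₀A : x₀ ∉ A := by
      rw [hA]
      rintro ⟨w, hw, hwx⟩
      have h1 := hx₀m w hw.le hwx
      rw [h1] at hw
      exact lt_irrefl _ hw
    obtain ⟨z, hz, hz1, hz2⟩ := hpc (interior A) (interior {z | ‖z‖ = 1 → z ∉ A}) isOpen_interior
      isOpen_interior (fun z hz => by
        rw [mem_sphere_zero_iff_norm] at hz
        by_cases h : z ∈ A
        · exact Or.inl (mem_interior_iff_mem_nhds.2 (hAo z hz h))
        · exact Or.inr (mem_interior_iff_mem_nhds.2 (hAc z hz h)))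
      ⟨x, mem_sphere_zero_iff_norm.2 hx, mem_interior_iff_mem_nhds.2 (hAo x hx hxA)⟩
      ⟨x₀, mem_sphere_zero_iff_norm.2 hx₀, mem_interior_iff_mem_nhds.2 (hAc x₀ hx₀ hx₀A)⟩
    exact interior_subset hz2 (mem_sphere_zero_iff_norm.1 hz) (interior_subset hz1)
  -- the image of the ball consists of points with exactly one preimage
  have hVb : ∀ y ∈ F '' ball 0 1, ∀ x, ‖x‖ = 1 → F x ≠ y := by
    rintro _ ⟨w, hw, rfl⟩ x hx hxw
    exact hsph x hx w (mem_ball_zero_iff.1 hw) hxw.symm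
  have hVc : IsPreconnected (F '' ball 0 1) :=
    (convex_ball (0 : E n) 1).isPreconnected.image _ (hFc.mono ball_subset_closedBall)
  have hne : (F '' ball 0 1 ∩ interior (One F)).Nonempty := by
    obtain ⟨U, hU, hUi⟩ : ∃ U ∈ 𝓝 x₀, InjOn F U := by
      obtain ⟨U, hU, hi⟩ := (hFL x₀ hx₀.le).eventually_injOn
      exact ⟨U, hU, hi⟩
    obtain ⟨U', hU'U, hU'o, hxU'⟩ := _root_.mem_nhds_iff.1 hU
    have h1 := pre_near hFc hU'o (y := F x₀) fun z hz hzx => by
      have h2 := hi (mem_sphere_zero_iff_norm.2 (hx₀m z hz hzx))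
        (mem_sphere_zero_iff_norm.2 hx₀) hzx
      rw [h2]
      exact hxU'
    have h2 : ∀ᶠ z in 𝓝 x₀, z ∈ U' ∧ ∀ x, ‖x‖ ≤ 1 → F x = F z → x ∈ U' := by
      filter_upwards [hU'o.mem_nhds hxU', (hFL x₀ hx₀.le).continuousAt.eventually h1] with z g1 g2
      exact ⟨g1, g2⟩
    have h3 : Tendsto (fun s : ℝ => s • x₀) (𝓝[<] 1) (𝓝 x₀) := by
      have h4 : Tendsto (fun s : ℝ => s • x₀) (𝓝 1) (𝓝 ((1 : ℝ) • x₀)) :=
        (continuous_id.smul continuous_const).tendsto 1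
      rw [one_smul] at h4
      exact h4.mono_left nhdsWithin_le_nhds
    have h4 : ∀ᶠ s : ℝ in 𝓝[<] 1, 0 < s :=
      mem_nhdsWithin_of_mem_nhds (lt_mem_nhds zero_lt_one)
    have h5 : ∀ᶠ s : ℝ in 𝓝[<] 1, s < 1 := self_mem_nhdsWithin
    obtain ⟨s, ⟨⟨hs1, hs2⟩, hs3⟩, hs4⟩ := (((h3.eventually h2).and h4).and h5).exists
    have hn1 : ‖s • x₀‖ < 1 := by
      rw [norm_smul, hx₀, mul_one, Real.norm_of_nonneg hs3.le]
      exact hs4
    have hy : F (s • x₀) ∈ F '' ball 0 1 := ⟨_, mem_ball_zero_iff.2 hn1, rfl⟩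
    refine ⟨F (s • x₀), hy, mem_interior_iff_mem_nhds.2 (one_nhds hFc hFL' ?_ (hVb _ hy))⟩
    exact ⟨s • x₀, hn1.le, rfl, fun x' hx' hxx =>
      hUi (hU'U (hs2 x' hx' hxx)) (hU'U hs1) hxx⟩
  have hVT : F '' ball 0 1 ⊆ One F := by
    have h1 : F '' ball 0 1 ⊆ interior (One F) := by
      refine IsPreconnected.subset_left_of_subset_union isOpen_interior
        (isOpen_interior (s := (One F)ᶜ)) ?_ ?_ hne hVc
      · exact Set.disjoint_left.2 fun y h1 h2 => (interior_subset h2) (interior_subset h1)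
      · intro y hy
        by_cases h : y ∈ One F
        · exact Or.inl (mem_interior_iff_mem_nhds.2 (one_nhds hFc hFL' h (hVb y hy)))
        · exact Or.inr (mem_interior_iff_mem_nhds.2 (notOne_nhds hFc hFL' h (hVb y hy)))
    exact h1.trans interior_subset
  intro x hx x' hx' hxx
  rw [mem_closedBall_zero_iff] at hx hx'
  rcases lt_or_eq_of_le hx with h | h
  · obtain ⟨z, -, -, hz⟩ := hVT ⟨x, mem_ball_zero_iff.2 h, rfl⟩
    rw [hz x hx rfl, hz x' hx' hxx.symm]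
  · rcases lt_or_eq_of_le hx' with h' | h'
    · obtain ⟨z, -, -, hz⟩ := hVT ⟨x', mem_ball_zero_iff.2 h', rfl⟩
      rw [hz x hx hxx, hz x' hx' rfl]
    · exact hi (mem_sphere_zero_iff_norm.2 h) (mem_sphere_zero_iff_norm.2 h') hxx

/-- Immersed balls with embedded boundary spheres are standard. -/
theorem sch_of_immersion (hn : 1 < Module.rank ℝ (E n)) {F : E n → E n}
    (hFL : ∀ x, ‖x‖ ≤ 1 → LD n F x) (hi : InjOn F (sphere 0 1)) :
    ∃ (G : E n → E n) (O : E n ≃ₗᵢ[ℝ] E n) (R' : ℝ), Bijective G ∧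
      (∀ x, LD n G x) ∧ (∀ x, ‖x‖ = 1 → G x = F x) ∧
      G '' closedBall 0 1 = F '' closedBall 0 1 ∧ ∀ x, R' ≤ ‖x‖ → G x = O x := by
  have hcb : IsCompact (closedBall (0 : E n) 1) := isCompact_closedBall _ _
  have hinj := inj_of_boundary hn hFL hi
  obtain ⟨t, ht, hti⟩ := hinj.exists_mem_nhdsSet hcb
    (fun x hx => (hFL x (mem_closedBall_zero_iff.1 hx)).continuousAt) (fun x hx => by
      obtain ⟨U, hU, hi⟩ := (hFL x (mem_closedBall_zero_iff.1 hx)).eventually_injOn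
      exact ⟨U, hU, hi⟩)
  have hLo : {x | LD n F x} ∈ 𝓝ˢ (closedBall (0 : E n) 1) := by
    rw [mem_nhdsSet_iff_forall]
    intro x hx
    exact (hFL x (mem_closedBall_zero_iff.1 hx)).eventually
  obtain ⟨W, hWo, hW1, hW2⟩ := mem_nhdsSet_iff_exists.1 (inter_mem ht hLo)
  obtain ⟨δ, hδ, hδW⟩ := hcb.exists_thickening_subset_open hWo hW1
  have hin : ball (0 : E n) (1 + δ) ⊆ W := by
    refine subset_trans ?_ hδW
    intro x hx
    rw [mem_ball_zero_iff] at hx
    rw [mem_thickening_iff]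
    by_cases h : ‖x‖ ≤ 1
    · exact ⟨x, mem_closedBall_zero_iff.2 h, by rw [dist_self]; exact hδ⟩
    · push Not at h
      have hx0 : 0 < ‖x‖ := by linarith
      refine ⟨(‖x‖⁻¹ : ℝ) • x, ?_, ?_⟩
      · rw [mem_closedBall_zero_iff, norm_smul, norm_inv, norm_norm, inv_mul_cancel₀ hx0.ne']
      · have h1 : x - (‖x‖⁻¹ : ℝ) • x = (1 - ‖x‖⁻¹) • x := by rw [sub_smul, one_smul]
        have h2 : 0 ≤ 1 - ‖x‖⁻¹ := by
          rw [sub_nonneg]
          exact inv_le_one_of_one_le₀ h.le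
        rw [dist_eq_norm, h1, norm_smul, Real.norm_of_nonneg h2, sub_mul, one_mul,
          inv_mul_cancel₀ hx0.ne']
        linarith
  have hFL2 : ∀ x, ‖x‖ < 1 + δ → LD n F x := fun x hx =>
    (hW2 (hin (mem_ball_zero_iff.2 hx))).2
  exact stSch2 n F δ hδ (fun x hx => (hFL2 x (mem_ball_zero_iff.1 hx)).continuousAt.continuousWithinAt)
    (hti.mono fun x hx => (hW2 (hin hx)).1) (fun x _ hx => hFL2 x hx)
    (fun x hx hn => (hn (hFL x hx.le)).elim)

/-- Coarsely monotone maps of the ball with embedded boundary spheres. -/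
theorem coarse_fill (n : ℕ) (hn : 1 < Module.rank ℝ (E n)) : ∃ κ : ℝ, 0 < κ ∧
    ∀ (H : E n → E n), ContinuousOn H (closedBall 0 1) → InjOn H (sphere 0 1) →
    (∀ x, ‖x‖ = 1 → LD n H x) → ∀ (ρ : ℝ) (r : E n → ℝ), ρ < 1 →
    ContDiff ℝ ∞ r → (∀ x, 0 ≤ r x) → (∀ x, ρ ≤ ‖x‖ → r x = 0) →
    (∀ x, ‖x‖ < 1 → r x = 0 → LD n H x) → (∀ x, 0 < r x → CoarseAt κ H r x) →
    ∃ (G : E n → E n) (O : E n ≃ₗᵢ[ℝ] E n) (R' : ℝ), Bijective G ∧
      (∀ x, LD n G x) ∧ (∀ x, ‖x‖ = 1 → G x = H x) ∧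
      (InjOn H (closedBall 0 1) → G '' closedBall 0 1 = H '' closedBall 0 1) ∧
      ∀ x, R' ≤ ‖x‖ → G x = O x := by
  have hnt : Nontrivial (E n) := by
    by_contra hcon
    rw [not_nontrivial_iff_subsingleton] at hcon
    rw [rank_subsingleton'] at hn
    exact absurd hn (by simp)
  obtain ⟨κ, hκ, h⟩ := coarse_local n
  refine ⟨κ, hκ, fun H hHc hHi hHL ρ r hρ hr hr0 hrρ hrz hrc => ?_⟩
  obtain ⟨F, hFH, hFL⟩ := h H hHc ρ r hρ hr hr0 hrρ hrz hrc
  have hFS : ∀ x, ‖x‖ = 1 → F x = H x := fun x hx => hFH x (by rw [hx]; exact hρ.le)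
  have hFL' : ∀ x, ‖x‖ ≤ 1 → LD n F x := by
    intro x hx
    rcases lt_or_eq_of_le hx with h1 | h1
    · exact hFL x h1
    · refine (hHL x h1).congr ?_
      have h2 : ∀ᶠ y : E n in 𝓝 x, ρ < ‖y‖ :=
        continuous_norm.continuousAt.eventually (lt_mem_nhds (hρ.trans_le h1.ge))
      filter_upwards [h2] with y hy
      exact hFH y hy.le
  have hiF : InjOn F (sphere 0 1) := by
    intro x hx x' hx' hxx
    rw [hFS x (mem_sphere_zero_iff_norm.1 hx), hFS x' (mem_sphere_zero_iff_norm.1 hx')] at hxx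
    exact hHi hx hx' hxx
  obtain ⟨G, O, R', h1, h2, h3, h4, h5⟩ := sch_of_immersion hn hFL' hiF
  refine ⟨G, O, R', h1, h2, fun x hx => (h3 x hx).trans (hFS x hx), fun hHi' => ?_, h5⟩
  have hFc : ContinuousOn F (closedBall 0 1) := fun x hx =>
    (hFL' x (mem_closedBall_zero_iff.1 hx)).continuousAt.continuousWithinAt
  obtain ⟨-, hFb⟩ := fill hρ hHc hHi' hFc (fun x h1 _ => hFH x h1) hFL
  rw [h4]
  have g1 : closedBall (0 : E n) 1 = ball 0 1 ∪ sphere 0 1 := ball_union_sphere.symm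
  rw [g1, image_union, image_union, hFb]
  congr 1
  refine image_congr fun x hx => ?_
  exact hFS x (mem_sphere_zero_iff_norm.1 hx)

end Pool.Agent.K7.H28.CB
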